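import Pool.Agent.Q196.OP.Asm
import Pool.Agent.Q196.OP.Usc
import Pool.Agent.Q196.OP.Inv
import Pool.Agent.Q196.OP.Grp
import Pool.Agent.Q275.OP.Iso
import Pool.Agent.Q275.OP.Subm

/-!
# Combinatorial-type classes of orbit polytopes need not be submanifolds

Negative answer to Q1 of MP_7b675e_co. There is a group `Γ` of 48 signed permutation matrices in
dimension 4 (isomorphic to `GL(2,3)`) and the point `w = (3, 5, 0, -1)` such that near `w` the class of
`w` on the sphere consists exactly of the points of the sphere in the union of the two hyperplanes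
`x₃ = 0` and `x₁ = x₂ + 2 x₄`. So the connected component of `w` in its class is not a submanifold of
the sphere.
-/

set_option autoImplicit false

namespace Pool.Agent.Results.MP_7b675e_co.CrossingHyperplanes

open Set

/-- Euclidean space of dimension `k`. -/
abbrev E (k : ℕ) := EuclideanSpace ℝ (Fin k)

/-- The orbit polytope `Q_w`, the convex hull of the orbit of `w` under `Γ ≤ O(k)`. -/
def orbitPolytope {k : ℕ} (Γ : Subgroup (E k ≃ₗᵢ[ℝ] E k)) (w : E k) : Set (E k) :=
  convexHull ℝ {x | ∃ g ∈ Γ, g w = x}

/-- Two polytopes have the same combinatorial type: their face lattices (the posets of all faces,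
the empty face and the polytope included, ordered by inclusion) are isomorphic. -/
def SameType {k : ℕ} (P P' : Set (E k)) : Prop :=
  Nonempty ({F : Set (E k) // IsExposed ℝ P F} ≃o {F : Set (E k) // IsExposed ℝ P' F})

/-- The class of `w` on the sphere of radius `r`. -/
def typeClass {k : ℕ} (Γ : Subgroup (E k ≃ₗᵢ[ℝ] E k)) (r : ℝ) (w : E k) : Set (E k) :=
  {w' | ‖w'‖ = r ∧ SameType (orbitPolytope Γ w') (orbitPolytope Γ w)}

/-- Embedded submanifolds of class `C¹` of Euclidean space: near each point the set is a slice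
(the part in a linear subspace) in a `C¹` chart of the ambient space. Every smooth embedded
submanifold of a sphere has this property. -/
def IsSubmanifold {k : ℕ} (M : Set (E k)) : Prop :=
  ∀ x ∈ M, ∃ (φ : OpenPartialHomeomorph (E k) (E k)) (F : Submodule ℝ (E k)), x ∈ φ.source ∧
    ContDiffOn ℝ 1 φ φ.source ∧ ContDiffOn ℝ 1 φ.symm φ.target ∧
    φ '' (M ∩ φ.source) = (F : Set (E k)) ∩ φ.target

/-- There are a finite group `Γ` of isometries of `ℝ⁴`, a radius `r > 0` and a point `w` of the sphere
of radius `r` such that the connected component of `w` in its combinatorial-type class is not a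
submanifold. -/
theorem result : ∃ (Γ : Subgroup (E 4 ≃ₗᵢ[ℝ] E 4)) (r : ℝ) (w : E 4), Finite Γ ∧ 0 < r ∧ ‖w‖ = r ∧
    ¬ IsSubmanifold (connectedComponentIn (typeClass Γ r w) w) :=
  Q196.OP.final Q196.OP.t_FAC Q196.OP.t_LAT Q275.OP.t_ISO Q196.OP.t_INV Q196.OP.t_USC
    Q275.OP.t_SUBM Q196.OP.t_GRP Q196.OP.t_GOOD Q196.OP.t_INJ Q196.OP.t_CERT Q196.OP.t_NEAR

end Pool.Agent.Results.MP_7b675e_co.CrossingHyperplanes
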